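import Mathlib
import Pool.Agent.Helper926.RK.Defs
import Pool.Agent.Helper926.RK.Final

/-!
A negative answer to part (c) of the question: some real `A` is not `≤_rK`-reducible to any
Martin-Löf random real.
-/

set_option autoImplicit false

namespace Pool.Agent.Results.MP_b43e09_lc.NotBelowRandom

open Pool.Agent.Helper926.RK

/-- There is a real `A` such that for every Martin-Löf random real `Z` and every prefix-free
machine `U` with a condition (in particular for every universal one, for which `condK U` is the
conditional complexity `K`) the reduction `A ≤_rK Z` fails, that is `K(A↾n | Z↾n)` is unbounded. -/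
theorem result : ∃ A : ℕ → Bool, ∀ Z : ℕ → Bool, MLRandom Z →
    ∀ U : List Bool → List Bool →. List Bool, IsPrefixFreeMachine U → ¬ RKReducible U A Z := by
  obtain ⟨A, hA⟩ := final effective_holds
  exact ⟨A, fun Z hZ U hU => hA Z hZ U hU.partrec⟩

/-- the special case of universal machines -/
theorem result_universal : ∃ A : ℕ → Bool, ∀ U : List Bool → List Bool →. List Bool,
    IsUniversal U → ∀ Z : ℕ → Bool, MLRandom Z → ¬ RKReducible U A Z := by
  obtain ⟨A, hA⟩ := result
  exact ⟨A, fun U hU Z hZ => hA Z hZ U hU.toIsPrefixFreeMachine⟩

end Pool.Agent.Results.MP_b43e09_lc.NotBelowRandom
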